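import Mathlib

/-!
Duplication-loss histories in a species tree: definitions used by the hand-ins for
problem MP_f5c34b_co.
-/

namespace Pool.Agent.Lib.MP_f5c34b_co

open PowerSeries Filter

/-- A species tree: a rooted tree in which every internal node has exactly two children.
(The two children are listed in an order, but nothing below depends on that order.) -/
inductive SpTree : Type
  | leaf : SpTree
  | node : SpTree → SpTree → SpTree

/-- The size of a species tree: its number of leaves. -/
def SpTree.size : SpTree → ℕ
  | .leaf => 1
  | .node l r => l.size + r.size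

/-- The caterpillar `CT k` with `k ≥ 1` leaves: `CT 1` is a leaf, and for `k ≥ 2` the two
subtrees at the root are `CT (k - 1)` and a leaf.  (Junk value `CT 0 = leaf`.) -/
def CT : ℕ → SpTree
  | 0 => .leaf
  | 1 => .leaf
  | (k + 2) => .node (CT (k + 1)) .leaf

/-- The balanced tree `BT k` with `k ≥ 1` leaves: `BT 1` is a leaf, and for `k ≥ 2` the two
subtrees at the root are `BT ⌊k/2⌋` and `BT ⌈k/2⌉`.  (Junk value `BT 0 = leaf`.) -/
def BT : ℕ → SpTree
  | 0 => .leaf
  | 1 => .leaf
  | (k + 2) => .node (BT ((k + 2) / 2)) (BT ((k + 3) / 2))

/-- The power series `B(z) = (1 - √(1 - 4z)) / 2 = ∑_{n ≥ 1} Cat(n - 1) z^n`. -/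
noncomputable def B : ℝ⟦X⟧ := PowerSeries.mk fun n => if n = 0 then 0 else (catalan (n - 1) : ℝ)

/-- The generating function `H_u(z)` of duplication-loss histories at the root of a species
tree: `H = B(z)` for a leaf, and `H = B(H_l H_r + H_l + H_r)` for a root whose two subtrees
have generating functions `H_l` and `H_r`. -/
noncomputable def H : SpTree → ℝ⟦X⟧
  | .leaf => B
  | .node l r => B.subst (H l * H r + H l + H r)

/-- `h S n = [z^n] H_S(z)`: the number of duplication-loss histories of size `n`. -/
noncomputable def h (S : SpTree) (n : ℕ) : ℝ := coeff n (H S)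

/-- The exponential growth factor `α_S = lim_n h_S(n)^(1/n)`, written as a limit superior
(that it is a limit is part of the statement that uses it). -/
noncomputable def alpha (S : SpTree) : ℝ :=
  limsup (fun n : ℕ => (h S n) ^ ((1 : ℝ) / n)) atTop

end Pool.Agent.Lib.MP_f5c34b_co
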