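import Mathlib
import Pool.Agent.Lib.MP_f5c34b_co.Defs

section

namespace Pool.Agent.Lib.MP_f5c34b_co

open PowerSeries Finset

lemma coeff_B_zero : constantCoeff B = 0 := by
  rw [← coeff_zero_eq_constantCoeff_apply]; simp [B]

lemma B_eq : B = X * (catalanSeries.map (Nat.castRingHom ℝ)) := by
  ext n
  rcases n with _ | n
  · simp [B]
  · simp [B, coeff_succ_X_mul]

/-- `B = z + B^2`. -/
lemma B_fun : B = X + B ^ 2 := by
  have h1 : (catalanSeries.map (Nat.castRingHom ℝ)) =
      1 + (catalanSeries.map (Nat.castRingHom ℝ)) ^ 2 * X := by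
    have := congrArg (PowerSeries.map (Nat.castRingHom ℝ)) catalanSeries_sq_mul_X_add_one
    rw [map_add, map_mul, map_pow, map_one, PowerSeries.map_X] at this
    rw [add_comm]; exact this.symm
  rw [B_eq]
  conv_lhs => rw [h1]
  ring

/-- inner series at a tree -/
noncomputable def Z : SpTree → ℝ⟦X⟧
  | .leaf => X
  | .node l r => H l * H r + H l + H r

lemma constCoeff_H (S : SpTree) : constantCoeff (H S) = 0 := by
  induction S with
  | leaf => exact coeff_B_zero
  | node l r hl hr =>
    rw [H]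
    refine constantCoeff_subst_eq_zero (a := H l * H r + H l + H r) ?_ B coeff_B_zero
    change constantCoeff (H l * H r + H l + H r) = 0
    simp [hl, hr]

lemma constCoeff_Z (S : SpTree) : constantCoeff (Z S) = 0 := by
  cases S with
  | leaf => simp [Z]
  | node l r => simp [Z, constCoeff_H]

/-- `H = Z + H^2`. -/
lemma H_fun (S : SpTree) : H S = Z S + (H S) ^ 2 := by
  cases S with
  | leaf => exact B_fun
  | node l r =>
    have hs : HasSubst (H l * H r + H l + H r) :=
      HasSubst.of_constantCoeff_zero' (by simp [constCoeff_H])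
    rw [H, Z]
    conv_lhs => rw [B_fun]
    rw [subst_add hs, subst_X hs, subst_pow hs]

lemma h_zero (S : SpTree) : h S 0 = 0 := by
  rw [h, coeff_zero_eq_constantCoeff_apply, constCoeff_H]

lemma h_rec (S : SpTree) (n : ℕ) :
    h S n = coeff n (Z S) + ∑ p ∈ antidiagonal n, h S p.1 * h S p.2 := by
  have := congrArg (coeff n) (H_fun S)
  rw [map_add, sq, coeff_mul] at this
  exact this

lemma coeffs_nonneg_aux (a b : ℕ → ℝ) (ha : ∀ n, 0 ≤ a n) (hb0 : b 0 = 0)
    (hrec : ∀ n, b n = a n + ∑ p ∈ antidiagonal n, b p.1 * b p.2) : ∀ n, 0 ≤ b n := by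
  intro n
  induction n using Nat.strong_induction_on with
  | _ n ih =>
    rw [hrec n]
    refine add_nonneg (ha n) (Finset.sum_nonneg ?_)
    intro p hp
    have hp' := mem_antidiagonal.1 hp
    rcases Nat.eq_zero_or_pos p.1 with h1 | h1
    · rw [h1, hb0]; simp
    rcases Nat.eq_zero_or_pos p.2 with h2 | h2
    · rw [h2, hb0]; simp
    exact mul_nonneg (ih _ (by omega)) (ih _ (by omega))

lemma h_nonneg_and (S : SpTree) : (∀ n, 0 ≤ coeff n (Z S)) ∧ (∀ n, 0 ≤ h S n) := by
  induction S with
  | leaf =>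
    have : ∀ n, 0 ≤ coeff n (Z .leaf) := by
      intro n; simp only [Z, coeff_X]; split_ifs <;> norm_num
    exact ⟨this, coeffs_nonneg_aux _ _ this (h_zero _) (h_rec _)⟩
  | node l r hl hr =>
    have : ∀ n, 0 ≤ coeff n (Z (.node l r)) := by
      intro n
      simp only [Z, map_add, coeff_mul]
      refine add_nonneg (add_nonneg (Finset.sum_nonneg ?_) (hl.2 n)) (hr.2 n)
      intro p _
      exact mul_nonneg (hl.2 _) (hr.2 _)
    exact ⟨this, coeffs_nonneg_aux _ _ this (h_zero _) (h_rec _)⟩

lemma Z_nonneg (S : SpTree) (n : ℕ) : 0 ≤ coeff n (Z S) := (h_nonneg_and S).1 n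
lemma h_nonneg (S : SpTree) (n : ℕ) : 0 ≤ h S n := (h_nonneg_and S).2 n

/-- supermultiplicativity -/
lemma h_supermul (S : SpTree) (m n : ℕ) : h S m * h S n ≤ h S (m + n) := by
  rw [h_rec S (m + n)]
  have h1 : h S m * h S n ≤ ∑ p ∈ antidiagonal (m + n), h S p.1 * h S p.2 := by
    have hmem : (m, n) ∈ antidiagonal (m + n) := by simp
    exact Finset.single_le_sum (f := fun p : ℕ × ℕ => h S p.1 * h S p.2)
      (fun p _ => mul_nonneg (h_nonneg _ _) (h_nonneg _ _)) hmem
  linarith [Z_nonneg S (m + n)]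

lemma one_le_h_one (S : SpTree) : 1 ≤ h S 1 := by
  induction S with
  | leaf => simp [h, H, B]
  | node l r hl hr =>
    rw [h_rec]
    have : coeff 1 (Z (.node l r)) = h l 1 + h r 1 := by
      simp only [Z, map_add, coeff_mul]
      rw [Finset.Nat.antidiagonal_succ]
      simp [constCoeff_H, h]
    rw [this]
    have h2 : 0 ≤ ∑ p ∈ antidiagonal 1, h (.node l r) p.1 * h (.node l r) p.2 :=
      Finset.sum_nonneg fun p _ => mul_nonneg (h_nonneg _ _) (h_nonneg _ _)
    linarith

lemma one_le_h (S : SpTree) (n : ℕ) (hn : 1 ≤ n) : 1 ≤ h S n := by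
  induction n, hn using Nat.le_induction with
  | base => exact one_le_h_one S
  | succ n hn ih =>
    have := h_supermul S n 1
    have h1 := one_le_h_one S
    nlinarith

end Pool.Agent.Lib.MP_f5c34b_co
end

section

namespace Pool.Agent.Lib.MP_f5c34b_co

open PowerSeries Finset

/-- truncated convolution bound -/
lemma conv_trunc_le (c : ℕ → ℝ) (hc : ∀ n, 0 ≤ c n) (h0 : c 0 = 0) (N : ℕ) :
    ∑ n ∈ range (N + 1), ∑ p ∈ antidiagonal n, c p.1 * c p.2 ≤ (∑ i ∈ range N, c i) ^ 2 := by
  classical
  have hsq : (∑ i ∈ range N, c i) ^ 2 = ∑ p ∈ range N ×ˢ range N, c p.1 * c p.2 := by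
    rw [sq, Finset.sum_mul_sum, Finset.sum_product]
  rw [hsq]
  have hfib : ∑ n ∈ range (2 * N + 1), ∑ p ∈ range N ×ˢ range N with p.1 + p.2 = n, c p.1 * c p.2
      = ∑ p ∈ range N ×ˢ range N, c p.1 * c p.2 := by
    apply Finset.sum_fiberwise_of_maps_to
    intro p hp
    simp only [mem_product, mem_range] at hp ⊢
    omega
  rw [← hfib]
  refine le_trans (Finset.sum_le_sum (g := fun n =>
    ∑ p ∈ range N ×ˢ range N with p.1 + p.2 = n, c p.1 * c p.2) ?_) ?_
  · intro n hn
    rw [mem_range] at hn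
    have : ∑ p ∈ antidiagonal n, c p.1 * c p.2 =
        ∑ p ∈ (antidiagonal n).filter (fun p => p.1 ≠ 0 ∧ p.2 ≠ 0), c p.1 * c p.2 := by
      rw [Finset.sum_filter]
      apply Finset.sum_congr rfl
      intro p _
      split_ifs with h
      · rfl
      · rw [not_and_or, not_not, not_not] at h
        rcases h with h | h
        · rw [h, h0, zero_mul]
        · rw [h, h0, mul_zero]
    rw [this]
    apply Finset.sum_le_sum_of_subset_of_nonneg
    · intro p hp
      simp only [mem_filter, HasAntidiagonal.mem_antidiagonal, mem_product, mem_range] at hp ⊢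
      omega
    · intro p _ _
      exact mul_nonneg (hc _) (hc _)
  · apply Finset.sum_le_sum_of_subset_of_nonneg
    · intro n hn
      simp only [mem_range] at hn ⊢
      by_contra hcon
      omega
    · intro n _ _
      exact Finset.sum_nonneg fun p _ => mul_nonneg (hc _) (hc _)

/-- small root of `η - η^2 = ζ` -/
noncomputable def eta (ζ : ℝ) : ℝ := (1 - Real.sqrt (1 - 4 * ζ)) / 2

lemma eta_eq {ζ : ℝ} (h : ζ ≤ 1 / 4) : eta ζ = ζ + (eta ζ) ^ 2 := by
  have hs : Real.sqrt (1 - 4 * ζ) ^ 2 = 1 - 4 * ζ := Real.sq_sqrt (by linarith)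
  unfold eta
  nlinarith

lemma eta_le_half (ζ : ℝ) : eta ζ ≤ 1 / 2 := by
  have := Real.sqrt_nonneg (1 - 4 * ζ)
  unfold eta; linarith

lemma eta_nonneg {ζ : ℝ} (h : 0 ≤ ζ) : 0 ≤ eta ζ := by
  have : Real.sqrt (1 - 4 * ζ) ≤ 1 := by
    rw [Real.sqrt_le_one] ; linarith
  unfold eta; linarith

section Abstract

variable (a b : ℕ → ℝ) 

lemma term_rec (hrec : ∀ n, b n = a n + ∑ p ∈ antidiagonal n, b p.1 * b p.2) (z : ℝ) (n : ℕ) :
    b n * z ^ n =
    a n * z ^ n + ∑ p ∈ antidiagonal n, (b p.1 * z ^ p.1) * (b p.2 * z ^ p.2) := by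
  rw [hrec n, add_mul, Finset.sum_mul]
  congr 1
  apply Finset.sum_congr rfl
  intro p hp
  have := HasAntidiagonal.mem_antidiagonal.1 hp
  rw [← this, pow_add]; ring

lemma hasSum_sq {c : ℕ → ℝ} (_hc : ∀ n, 0 ≤ c n) {s : ℝ} (hs : HasSum c s) :
    HasSum (fun n => ∑ p ∈ antidiagonal n, c p.1 * c p.2) (s * s) := by
  have hn : Summable (fun n => ‖c n‖) := hs.summable.norm
  have := (summable_norm_sum_mul_antidiagonal_of_summable_norm hn hn).of_norm
  have h2 := tsum_mul_tsum_eq_tsum_sum_antidiagonal_of_summable_norm hn hn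
  rw [hs.tsum_eq] at h2
  rw [h2]
  exact this.hasSum

lemma conv_of_le (ha : ∀ n, 0 ≤ a n) (hb : ∀ n, 0 ≤ b n) (hb0 : b 0 = 0)
    (hrec : ∀ n, b n = a n + ∑ p ∈ antidiagonal n, b p.1 * b p.2)
    {z ζ : ℝ} (hz : 0 ≤ z) (hsum : HasSum (fun n => a n * z ^ n) ζ)
    (hζ : ζ ≤ 1 / 4) : HasSum (fun n => b n * z ^ n) (eta ζ) := by
  have hζ0 : 0 ≤ ζ := hsum.nonneg fun n => mul_nonneg (ha n) (pow_nonneg hz n)
  have hc : ∀ n, 0 ≤ b n * z ^ n := fun n => mul_nonneg (hb n) (pow_nonneg hz n)
  have hpart : ∀ N, ∑ n ∈ range N, b n * z ^ n ≤ eta ζ := by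
    intro N
    induction N with
    | zero => simpa using eta_nonneg hζ0
    | succ N ih =>
      have h1 : ∑ n ∈ range (N + 1), b n * z ^ n = ∑ n ∈ range (N + 1), a n * z ^ n +
          ∑ n ∈ range (N + 1), ∑ p ∈ antidiagonal n, (b p.1 * z ^ p.1) * (b p.2 * z ^ p.2) := by
        rw [← Finset.sum_add_distrib]
        exact Finset.sum_congr rfl fun n _ => term_rec a b hrec z n
      have h2 := conv_trunc_le (fun n => b n * z ^ n) hc (by simp [hb0]) N
      have h3 : ∑ n ∈ range (N + 1), a n * z ^ n ≤ ζ :=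
        sum_le_hasSum _ (fun n _ => mul_nonneg (ha n) (pow_nonneg hz n)) hsum
      have h4 : 0 ≤ ∑ n ∈ range N, b n * z ^ n := Finset.sum_nonneg fun n _ => hc n
      have h5 : (∑ n ∈ range N, b n * z ^ n) ^ 2 ≤ (eta ζ) ^ 2 := pow_le_pow_left₀ h4 ih 2
      have h6 := eta_eq hζ
      rw [h1]
      linarith
  have hsumm : Summable (fun n => b n * z ^ n) := summable_of_sum_range_le hc hpart
  obtain ⟨s, hs⟩ := hsumm
  have hs_le : s ≤ eta ζ := le_of_tendsto' hs.tendsto_sum_nat hpart
  have hs0 : 0 ≤ s := hs.nonneg hc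
  -- functional equation for s
  have hprod := hasSum_sq hc hs
  have hfun : s = ζ + s * s := by
    have := hsum.add hprod
    refine hs.unique ?_
    have h9 : (fun n => b n * z ^ n) = fun n => a n * z ^ n +
        ∑ p ∈ antidiagonal n, (b p.1 * z ^ p.1) * (b p.2 * z ^ p.2) := by
      funext n; exact term_rec a b hrec z n
    rw [h9]; exact this
  have h6 := eta_eq hζ
  have h7 := eta_le_half ζ
  have : s = eta ζ := by
    by_contra hne
    have hlt : s < eta ζ := lt_of_le_of_ne hs_le hne
    have : (eta ζ - s) * (1 - eta ζ - s) = 0 := by linear_combination h6 - hfun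
    rcases mul_eq_zero.1 this with h | h <;> linarith
  rw [← this]; exact hs

lemma conv_back (hb : ∀ n, 0 ≤ b n)
    (hrec : ∀ n, b n = a n + ∑ p ∈ antidiagonal n, b p.1 * b p.2)
    {z s : ℝ} (hz : 0 ≤ z) (hs : HasSum (fun n => b n * z ^ n) s) :
    HasSum (fun n => a n * z ^ n) (s - s * s) := by
  have hc : ∀ n, 0 ≤ b n * z ^ n := fun n => mul_nonneg (hb n) (pow_nonneg hz n)
  have hprod := hasSum_sq hc hs
  have := hs.sub hprod
  have h9 : (fun n => a n * z ^ n) = fun n => b n * z ^ n -
      ∑ p ∈ antidiagonal n, (b p.1 * z ^ p.1) * (b p.2 * z ^ p.2) := by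
    funext n; rw [term_rec a b hrec z n]; ring
  rw [h9]; exact this

end Abstract

end Pool.Agent.Lib.MP_f5c34b_co
end

section

namespace Pool.Agent.Lib.MP_f5c34b_co

open PowerSeries Finset Filter Topology

/-- `phi t` solves `3 G - 1 - G^2 = t` with `G ≤ 3/2` (clipped at `3/2` for `t ≥ 5/4`). -/
noncomputable def phi (t : ℝ) : ℝ := (3 - Real.sqrt (5 - 4 * t)) / 2

lemma phi_le (t : ℝ) : phi t ≤ 3 / 2 := by
  have := Real.sqrt_nonneg (5 - 4 * t)
  unfold phi; linarith

lemma phi_eq {t : ℝ} (h : t ≤ 5 / 4) : 3 * phi t - 1 - (phi t) ^ 2 = t := by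
  have hs : Real.sqrt (5 - 4 * t) ^ 2 = 5 - 4 * t := Real.sq_sqrt (by linarith)
  unfold phi
  nlinarith

lemma phi_of_ge {t : ℝ} (h : 5 / 4 ≤ t) : phi t = 3 / 2 := by
  have : Real.sqrt (5 - 4 * t) = 0 := Real.sqrt_eq_zero_of_nonpos (by linarith)
  unfold phi; rw [this]; norm_num

lemma phi_mono {s t : ℝ} (h : s ≤ t) : phi s ≤ phi t := by
  have : Real.sqrt (5 - 4 * t) ≤ Real.sqrt (5 - 4 * s) := Real.sqrt_le_sqrt (by linarith)
  unfold phi; linarith

lemma phi_strict {s t : ℝ} (h : s < t) (hs : s < 5 / 4) : phi s < phi t := by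
  rcases le_or_gt t (5 / 4) with ht | ht
  · have : Real.sqrt (5 - 4 * t) < Real.sqrt (5 - 4 * s) :=
      Real.sqrt_lt_sqrt (by linarith) (by linarith)
    unfold phi; linarith
  · rw [phi_of_ge ht.le]
    have : 0 < Real.sqrt (5 - 4 * s) := Real.sqrt_pos.2 (by linarith)
    unfold phi; linarith

lemma phi_one : phi 1 = 1 := by
  unfold phi; norm_num

lemma one_le_phi {t : ℝ} (h : 1 ≤ t) : 1 ≤ phi t := by
  rw [← phi_one]; exact phi_mono h

lemma le_phi {t : ℝ} (h : t ≤ 5 / 4) : t ≤ phi t := by
  have h1 := phi_eq h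
  nlinarith [sq_nonneg (phi t - 1)]

lemma phi_eta (ζ : ℝ) : phi (1 + ζ) = 1 + eta ζ := by
  unfold phi eta
  have : 5 - 4 * (1 + ζ) = 1 - 4 * ζ := by ring
  rw [this]; ring

lemma phi_cont : Continuous phi := by
  unfold phi; fun_prop

/-- value of `1 + H_S(z)` -/
noncomputable def V : SpTree → ℝ → ℝ
  | .leaf, z => phi (1 + z)
  | .node l r, z => phi (V l z * V r z)

/-- value of `1 + Z_S(z)` -/
noncomputable def P : SpTree → ℝ → ℝ
  | .leaf, z => 1 + z
  | .node l r, z => V l z * V r z

lemma V_eq (S : SpTree) (z : ℝ) : V S z = phi (P S z) := by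
  cases S <;> rfl

lemma one_le_V_P (S : SpTree) {z : ℝ} (hz : 0 ≤ z) : 1 ≤ V S z ∧ 1 ≤ P S z := by
  induction S with
  | leaf => 
    refine ⟨one_le_phi (by linarith), ?_⟩
    simp only [P]; linarith
  | node l r hl hr =>
    have : 1 ≤ V l z * V r z := by nlinarith [hl.1, hr.1]
    exact ⟨one_le_phi this, this⟩

lemma one_le_V (S : SpTree) {z : ℝ} (hz : 0 ≤ z) : 1 ≤ V S z := (one_le_V_P S hz).1
lemma one_le_P (S : SpTree) {z : ℝ} (hz : 0 ≤ z) : 1 ≤ P S z := (one_le_V_P S hz).2

lemma V_cont (S : SpTree) : Continuous (V S) ∧ Continuous (P S) := by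
  induction S with
  | leaf =>
    have : Continuous (P .leaf) := by
      show Continuous fun z => 1 + z
      fun_prop
    exact ⟨phi_cont.comp this, this⟩
  | node l r hl hr =>
    have : Continuous (P (.node l r)) := hl.1.mul hr.1
    exact ⟨phi_cont.comp this, this⟩

/-- if the root product is at most `5/4`, so are the products in the subtrees -/
lemma sub_le {l r : SpTree} {z : ℝ} (hz : 0 ≤ z) (h : P (.node l r) z ≤ 5 / 4) :
    V l z ≤ 5 / 4 ∧ V r z ≤ 5 / 4 ∧ P l z ≤ 5 / 4 ∧ P r z ≤ 5 / 4 := by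
  have h' : V l z * V r z ≤ 5 / 4 := h
  have h1 := one_le_V l hz
  have h2 := one_le_V r hz
  have hl : V l z ≤ 5 / 4 := by nlinarith
  have hr : V r z ≤ 5 / 4 := by nlinarith
  refine ⟨hl, hr, ?_, ?_⟩
  · by_contra hc
    rw [V_eq, phi_of_ge (by linarith)] at hl
    norm_num at hl
  · by_contra hc
    rw [V_eq, phi_of_ge (by linarith)] at hr
    norm_num at hr

lemma hasSum_mul' {c d : ℕ → ℝ} {s t : ℝ} (hs : HasSum c s) (ht : HasSum d t) :
    HasSum (fun n => ∑ p ∈ antidiagonal n, c p.1 * d p.2) (s * t) := by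
  have hn : Summable (fun n => ‖c n‖) := hs.summable.norm
  have hm : Summable (fun n => ‖d n‖) := ht.summable.norm
  have := (summable_norm_sum_mul_antidiagonal_of_summable_norm hn hm).of_norm
  have h2 := tsum_mul_tsum_eq_tsum_sum_antidiagonal_of_summable_norm hn hm
  rw [hs.tsum_eq, ht.tsum_eq] at h2
  rw [h2]
  exact this.hasSum

/-- convergence of `Z_S` and `H_S` -/
lemma hasSum_of_le (S : SpTree) {z : ℝ} (hz : 0 ≤ z) (hP : P S z ≤ 5 / 4) :
    HasSum (fun n => coeff n (Z S) * z ^ n) (P S z - 1) ∧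
    HasSum (fun n => h S n * z ^ n) (V S z - 1) := by
  induction S with
  | leaf =>
    have h1 : HasSum (fun n => coeff n (Z .leaf) * z ^ n) (P .leaf z - 1) := by
      have : HasSum (fun n => coeff n (Z .leaf) * z ^ n) (coeff 1 (Z .leaf) * z ^ 1) := by
        apply hasSum_single
        intro n hn
        simp [Z, coeff_X, hn]
      simpa [Z, P] using this
    refine ⟨h1, ?_⟩
    have := conv_of_le _ _ (Z_nonneg .leaf) (h_nonneg .leaf) (h_zero _) (h_rec _) hz h1
      (by simp only [P] at hP ⊢; linarith)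
    have h2 : V .leaf z - 1 = eta (P .leaf z - 1) := by
      have := phi_eta (P .leaf z - 1)
      rw [V_eq]
      rw [add_sub_cancel] at this
      linarith
    rw [h2]; exact this
  | node l r hl hr =>
    obtain ⟨h1, h2, h3, h4⟩ := sub_le hz hP
    have hl2 := (hl h3).2
    have hr2 := (hr h4).2
    have hZ : HasSum (fun n => coeff n (Z (.node l r)) * z ^ n) (P (.node l r) z - 1) := by
      have h5 := ((hasSum_mul' hl2 hr2).add hl2).add hr2
      have h6 : P (.node l r) z - 1 =
          (V l z - 1) * (V r z - 1) + (V l z - 1) + (V r z - 1) := by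
        simp only [P]; ring
      rw [h6]
      have h7 : (fun n => coeff n (Z (.node l r)) * z ^ n) =
          fun n => ∑ p ∈ antidiagonal n, h l p.1 * z ^ p.1 * (h r p.2 * z ^ p.2) +
            h l n * z ^ n + h r n * z ^ n := by
        funext n
        simp only [Z, map_add, coeff_mul, add_mul, Finset.sum_mul]
        congr 2
        apply Finset.sum_congr rfl
        intro p hp
        have := HasAntidiagonal.mem_antidiagonal.1 hp
        rw [← this, pow_add]; simp only [h]; ring
      rw [h7]; exact h5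
    refine ⟨hZ, ?_⟩
    have := conv_of_le _ _ (Z_nonneg _) (h_nonneg _) (h_zero _) (h_rec _) hz hZ
      (by linarith)
    have h2 : V (.node l r) z - 1 = eta (P (.node l r) z - 1) := by
      have := phi_eta (P (.node l r) z - 1)
      rw [V_eq]
      rw [add_sub_cancel] at this
      linarith
    rw [h2]; exact this

/-- existence of the dominant singularity -/
lemma exists_rho (S : SpTree) : ∃ ρ : ℝ, 0 < ρ ∧ ρ ≤ 1 / 4 ∧ P S ρ = 5 / 4 := by
  have h0 : P S 0 = 1 ∧ V S 0 = 1 := by
    induction S with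
    | leaf => simp [P, V, phi_one]
    | node l r hl hr =>
      simp [P, V, hl.2, hr.2, phi_one]
  have h1 : 5 / 4 ≤ P S (1 / 4) ∧ V S (1 / 4) = 3 / 2 := by
    induction S with
    | leaf => 
      have : (5 : ℝ) / 4 ≤ P .leaf (1 / 4) := by simp only [P]; norm_num
      exact ⟨this, by rw [V_eq]; exact phi_of_ge this⟩
    | node l r hl hr =>
      have h0l : P l 0 = 1 ∧ V l 0 = 1 := by
        clear hl hr h0
        induction l with
        | leaf => simp [P, V, phi_one]
        | node l r hl hr => simp [P, V, hl.2, hr.2, phi_one]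
      have h0r : P r 0 = 1 ∧ V r 0 = 1 := by
        clear hl hr h0
        induction r with
        | leaf => simp [P, V, phi_one]
        | node l r hl hr => simp [P, V, hl.2, hr.2, phi_one]
      have : (5 : ℝ) / 4 ≤ P (.node l r) (1 / 4) := by
        simp only [P, (hl h0l).2, (hr h0r).2]; norm_num
      exact ⟨this, by rw [V_eq]; exact phi_of_ge this⟩
  have hiv := intermediate_value_Icc (show (0 : ℝ) ≤ 1 / 4 by norm_num)
    ((V_cont S).2.continuousOn (s := Set.Icc 0 (1 / 4)))
  have hmem : (5 : ℝ) / 4 ∈ Set.Icc (P S 0) (P S (1 / 4)) := ⟨by rw [h0.1]; norm_num, h1.1⟩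
  obtain ⟨ρ, ⟨hρ0, hρ1⟩, hρ⟩ := hiv hmem
  refine ⟨ρ, lt_of_le_of_ne hρ0 ?_, hρ1, hρ⟩
  rintro rfl
  rw [h0.1] at hρ; norm_num at hρ

/-- the radius of convergence -/
noncomputable def rho (S : SpTree) : ℝ := Classical.choose (exists_rho S)

lemma rho_pos (S : SpTree) : 0 < rho S := (Classical.choose_spec (exists_rho S)).1
lemma rho_le (S : SpTree) : rho S ≤ 1 / 4 := (Classical.choose_spec (exists_rho S)).2.1
lemma P_rho (S : SpTree) : P S (rho S) = 5 / 4 := (Classical.choose_spec (exists_rho S)).2.2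

lemma not_summable (S : SpTree) {z : ℝ} (hz : rho S < z) :
    ¬ Summable (fun n => h S n * z ^ n) := by
  rintro ⟨s, hs⟩
  have hρ := rho_pos S
  have hz0 : 0 ≤ z := by linarith
  have h1 := conv_back _ _ (h_nonneg S) (h_rec S) hz0 hs
  have h2 := hasSum_of_le S hρ.le (P_rho S).le
  rw [V_eq, P_rho, phi_of_ge le_rfl] at h2
  have h3 : (5 : ℝ) / 4 - 1 ≤ s - s * s := by
    refine hasSum_le (fun n => ?_) h2.1 h1
    exact mul_le_mul_of_nonneg_left (pow_le_pow_left₀ hρ.le hz.le n) (Z_nonneg S n)
  have h4 : (3 : ℝ) / 2 - 1 < s := by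
    refine hasSum_lt (i := 1) (fun n => ?_) ?_ h2.2 hs
    · exact mul_le_mul_of_nonneg_left (pow_le_pow_left₀ hρ.le hz.le n) (h_nonneg S n)
    · have := one_le_h_one S
      simp only [pow_one]
      exact mul_lt_mul_of_pos_left hz (by linarith)
  nlinarith [sq_nonneg (s - 1 / 2), mul_pos (sub_pos.2 h4) (sub_pos.2 h4)]

lemma summable_rho (S : SpTree) : Summable (fun n => h S n * (rho S) ^ n) :=
  (hasSum_of_le S (rho_pos S).le (P_rho S).le).2.summable

lemma h_mul_rho_le (S : SpTree) (n : ℕ) : h S n * (rho S) ^ n ≤ 1 := by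
  have h2 := (hasSum_of_le S (rho_pos S).le (P_rho S).le).2
  rw [V_eq, P_rho, phi_of_ge le_rfl] at h2
  have := le_hasSum h2 n (fun m _ => mul_nonneg (h_nonneg S m) (pow_nonneg (rho_pos S).le m))
  linarith

/-- growth rate = 1/rho -/
theorem tendsto_growth (S : SpTree) :
    Tendsto (fun n : ℕ => (h S n) ^ ((1 : ℝ) / n)) atTop (𝓝 (1 / rho S)) := by
  set u : ℕ → ℝ := fun n => - Real.log (h S n) with hu
  have hρ := rho_pos S
  have hsub : Subadditive u := by
    intro m n
    simp only [hu]
    rcases Nat.eq_zero_or_pos m with hm | hm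
    · subst hm; simp [h_zero]
    rcases Nat.eq_zero_or_pos n with hn | hn
    · subst hn; simp [h_zero]
    have h1 := one_le_h S m hm
    have h2 := one_le_h S n hn
    have h3 := h_supermul S m n
    have : Real.log (h S m * h S n) ≤ Real.log (h S (m + n)) :=
      Real.log_le_log (by positivity) h3
    rw [Real.log_mul (by linarith) (by linarith)] at this
    linarith
  have hlog : ∀ n : ℕ, 1 ≤ n → Real.log (h S n) ≤ n * Real.log (1 / rho S) := by
    intro n hn
    have h1 := one_le_h S n hn
    have h2 := h_mul_rho_le S n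
    have h3 : Real.log (h S n * (rho S) ^ n) ≤ 0 := by
      have := Real.log_le_log (by positivity) h2
      rwa [Real.log_one] at this
    rw [Real.log_mul (by linarith) (by positivity), Real.log_pow] at h3
    rw [one_div, Real.log_inv]
    linarith
  have hlogρ : 0 ≤ Real.log (1 / rho S) := by
    apply Real.log_nonneg
    rw [le_div_iff₀ hρ]
    linarith [rho_le S]
  have hbdd : BddBelow (Set.range fun n => u n / n) := by
    refine ⟨- Real.log (1 / rho S), ?_⟩
    rintro _ ⟨n, rfl⟩
    rcases Nat.eq_zero_or_pos n with hn | hn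
    · subst hn; simp; simpa using hlogρ
    · have := hlog n hn
      have hn' : (0 : ℝ) < n := by exact_mod_cast hn
      simp only [hu]
      rw [le_div_iff₀ hn']
      nlinarith
  have hlim := hsub.tendsto_lim hbdd
  set ℓ : ℝ := - hsub.lim with hℓ
  have hlim2 : Tendsto (fun n : ℕ => Real.log (h S n) / n) atTop (𝓝 ℓ) := by
    have := hlim.neg
    simp only [hu, neg_div, neg_neg] at this
    exact this
  have hexp : Tendsto (fun n : ℕ => (h S n) ^ ((1 : ℝ) / n)) atTop (𝓝 (Real.exp ℓ)) := by
    have h1 := (Real.continuous_exp.tendsto ℓ).comp hlim2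
    refine h1.congr' ?_
    filter_upwards [eventually_ge_atTop 1] with n hn
    have h1 := one_le_h S n hn
    simp only [Function.comp]
    rw [Real.rpow_def_of_pos (by linarith)]
    congr 1; ring
  have hle : Real.exp ℓ ≤ 1 / rho S := by
    have h1 : ℓ ≤ Real.log (1 / rho S) := by
      refine le_of_tendsto hlim2 ?_
      filter_upwards [eventually_ge_atTop 1] with n hn
      have hn' : (0 : ℝ) < n := by exact_mod_cast hn
      rw [div_le_iff₀ hn']
      have := hlog n hn
      linarith
    have h2 := Real.exp_le_exp.2 h1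
    rwa [Real.exp_log (by positivity)] at h2
  have hge : 1 / rho S ≤ Real.exp ℓ := by
    by_contra hcon
    push Not at hcon
    -- choose z with rho < z < exp (-ℓ)
    have h1 : rho S < Real.exp (-ℓ) := by
      rw [Real.exp_neg]
      rw [lt_div_iff₀ hρ] at hcon
      rw [lt_inv_comm₀ hρ (Real.exp_pos _)]
      rw [← one_div, lt_div_iff₀ hρ]
      exact hcon
    obtain ⟨z, hz1, hz2⟩ := exists_between h1
    have hz0 : 0 < z := by linarith
    apply not_summable S hz1
    have h2 : ℓ + Real.log z < 0 := by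
      have := Real.log_lt_log hz0 hz2
      rw [Real.log_exp] at this
      linarith
    obtain ⟨c, hc1, hc2⟩ := exists_between h2
    have h3 : Tendsto (fun n : ℕ => Real.log (h S n) / n + Real.log z) atTop
        (𝓝 (ℓ + Real.log z)) := hlim2.add_const _
    have h4 := h3.eventually (gt_mem_nhds hc1)
    have hgeo : Summable (fun n : ℕ => (Real.exp c) ^ n) :=
      summable_geometric_of_lt_one (Real.exp_pos _).le (by rw [Real.exp_lt_one_iff]; exact hc2)
    refine Summable.of_norm_bounded_eventually_nat hgeo ?_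
    filter_upwards [h4, eventually_ge_atTop 1] with n hn1 hn2
    have h5 := one_le_h S n hn2
    have hn' : (0 : ℝ) < n := by exact_mod_cast hn2
    rw [Real.norm_eq_abs, abs_of_nonneg (by positivity)]
    have h6 : Real.log (h S n) + n * Real.log z ≤ n * c := by
      have : Real.log (h S n) / n * n = Real.log (h S n) := by field_simp
      nlinarith
    calc h S n * z ^ n = Real.exp (Real.log (h S n) + n * Real.log z) := by
          rw [Real.exp_add, Real.exp_log (by linarith), mul_comm (n : ℝ), Real.exp_mul,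
            Real.exp_log hz0, Real.rpow_natCast]
      _ ≤ Real.exp (n * c) := Real.exp_le_exp.2 h6
      _ = (Real.exp c) ^ n := by rw [mul_comm, Real.exp_mul, Real.rpow_natCast]
  rw [le_antisymm hge hle]
  exact hexp

end Pool.Agent.Lib.MP_f5c34b_co
end

section

namespace Pool.Agent.Lib.MP_f5c34b_co

open PowerSeries Finset Filter Topology

/-- `phi t / t` is strictly increasing on `(1, 5/4]`. -/
lemma phi_ratio {s t : ℝ} (hs : 1 < s) (hst : s < t) (ht : t ≤ 5 / 4) :
    t * phi s < s * phi t := by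
  have h1 := phi_eq (hst.le.trans ht)
  have h2 := phi_eq ht
  have h3 := phi_strict hst (by linarith)
  have h4 : 1 < phi s := by rw [← phi_one]; exact phi_strict hs (by norm_num)
  have h5 : 0 < (phi t - phi s) * (phi s * phi t - 1) := by
    apply mul_pos (by linarith); nlinarith
  nlinarith

/-- strict log-convexity property of `phi`. -/
lemma phi_logconvex {p q r : ℝ} (hp : 1 ≤ p) (hpq : p < q) (hqr : q < r) (hr : r ≤ 5 / 4)
    (h : q ^ 2 ≤ p * r) : (phi q) ^ 2 < phi p * phi r := by
  set x := phi p with hx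
  set y := phi q with hy
  set w := phi r with hw
  have hx1 : 1 ≤ x := one_le_phi hp
  have hxy : x < y := phi_strict hpq (by linarith)
  have hyw : y < w := phi_strict hqr (by linarith)
  have hw1 : w ≤ 3 / 2 := phi_le r
  have ex : 3 * x - 1 - x ^ 2 = p := phi_eq (by linarith)
  have ey : 3 * y - 1 - y ^ 2 = q := phi_eq (by linarith)
  have ew : 3 * w - 1 - w ^ 2 = r := phi_eq hr
  by_contra hcon
  push Not at hcon
  -- g = sqrt (x w)
  set g := Real.sqrt (x * w) with hg
  have hxw : 0 ≤ x * w := by nlinarith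
  have hg2 : g ^ 2 = x * w := Real.sq_sqrt hxw
  have hg0 : 0 ≤ g := Real.sqrt_nonneg _
  have hgy : g ≤ y := by
    rw [hg]
    apply Real.sqrt_le_iff.2
    exact ⟨by linarith, hcon⟩
  have hxw1 : 1 ≤ x * w := one_le_mul_of_one_le_of_one_le hx1 (by linarith)
  have hg1 : 1 ≤ g := by
    rw [hg]
    exact Real.one_le_sqrt.2 hxw1
  have hsum : 2 * g < x + w := by
    have h1 : 0 < (w - x) ^ 2 := by
      apply sq_pos_of_pos; linarith
    apply lt_of_pow_lt_pow_left₀ 2 (by linarith)
    have : (2 * g) ^ 2 = 4 * (x * w) := by rw [mul_pow, hg2]; ring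
    rw [this]; linarith [h1, (by ring : (x + w) ^ 2 = 4 * (x * w) + (w - x) ^ 2)]
  have hfg : 3 * g - 1 - g ^ 2 ≤ q := by
    have h4 : 0 ≤ (y - g) * (3 - y - g) := mul_nonneg (by linarith) (by linarith)
    rw [← ey]; linarith [(by ring : (y - g) * (3 - y - g) = 3 * y - y ^ 2 - (3 * g - g ^ 2))]
  have hfg0 : 1 ≤ 3 * g - 1 - g ^ 2 := by
    have h4 : 0 ≤ (g - 1) * (2 - g) := mul_nonneg (by linarith) (by linarith)
    linarith [(by ring : (g - 1) * (2 - g) = 3 * g - g ^ 2 - 2)]
  have key : (3 * x - 1 - x ^ 2) * (3 * w - 1 - w ^ 2) < (3 * g - 1 - g ^ 2) ^ 2 := by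
    have h1 : (3 * g - 1 - g ^ 2) ^ 2 - (3 * x - 1 - x ^ 2) * (3 * w - 1 - w ^ 2)
        = (x + w - 2 * g) * (3 * (1 + g ^ 2) - (x + w) - 2 * g) := by
      have e1 : (3 * x - 1 - x ^ 2) * (3 * w - 1 - w ^ 2) =
        9 * (x * w) + 1 + (x * w) ^ 2 - 3 * (x + w) * (1 + x * w) + (x + w) ^ 2
          - 2 * (x * w) := by ring
      rw [e1, ← hg2]; ring
    have h2 : 0 < 3 * (1 + g ^ 2) - (x + w) - 2 * g := by
      have h4 : 0 ≤ (x - 1) * (w - 1) := mul_nonneg (by linarith) (by linarith)
      have h5 : x + w ≤ 1 + x * w := by linarith [h4, (by ring : (x - 1) * (w - 1) = x * w - x - w + 1)]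
      rw [hg2]
      linarith
    have h3 : 0 < (x + w - 2 * g) * (3 * (1 + g ^ 2) - (x + w) - 2 * g) :=
      mul_pos (by linarith) h2
    linarith
  rw [ex, ew] at key
  have : (3 * g - 1 - g ^ 2) ^ 2 ≤ q ^ 2 := pow_le_pow_left₀ (by linarith) hfg 2
  linarith

section Seq

variable {m : ℕ → ℝ} {K : ℕ} (hpos : ∀ j, 1 ≤ j → j ≤ K → 0 < m j)
    (hlc : ∀ j, 1 ≤ j → j + 2 ≤ K → m (j + 1) ^ 2 < m j * m (j + 2))

include hpos hlc

lemma lc_ratio (i j : ℕ) (hi : 1 ≤ i) (hij : i < j) (hj : j + 1 ≤ K) :
    m (i + 1) * m j < m i * m (j + 1) := by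
  induction j, hij using Nat.le_induction with
  | base =>
    have := hlc i hi (by omega)
    nlinarith
  | succ j hj' ih =>
    have h1 := ih (by omega)
    have h2 := hlc j (by omega) (by omega)
    have p1 := hpos i (by omega) (by omega)
    have p2 := hpos (i + 1) (by omega) (by omega)
    have p3 := hpos j (by omega) (by omega)
    have p4 := hpos (j + 1) (by omega) (by omega)
    have p5 := hpos (j + 2) (by omega) (by omega)
    -- m(i+1) m(j+1) * m j < m i m(j+2) * m j
    have h3 : (m (i + 1) * m (j + 1)) * m j < (m i * m (j + 1 + 1)) * m j := by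
      calc (m (i + 1) * m (j + 1)) * m j = (m (i + 1) * m j) * m (j + 1) := by ring
        _ < (m i * m (j + 1)) * m (j + 1) := mul_lt_mul_of_pos_right h1 p4
        _ = m i * m (j + 1) ^ 2 := by ring
        _ < m i * (m j * m (j + 2)) := mul_lt_mul_of_pos_left h2 p1
        _ = (m i * m (j + 1 + 1)) * m j := by ring
    exact lt_of_mul_lt_mul_right h3 p3.le

lemma lc_balanced (d : ℕ) : ∀ a b : ℕ, 1 ≤ a → a ≤ b → b ≤ K → b - a = d →
    m ((a + b) / 2) * m ((a + b + 1) / 2) ≤ m a * m b ∧
    (a + 2 ≤ b → m ((a + b) / 2) * m ((a + b + 1) / 2) < m a * m b) := by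
  induction d using Nat.strong_induction_on with
  | _ d ih =>
    intro a b ha hab hb hd
    rcases Nat.lt_or_ge b (a + 2) with h | h
    · have h1 : (a + b) / 2 = a := by omega
      have h2 : (a + b + 1) / 2 = b := by omega
      rw [h1, h2]
      exact ⟨le_rfl, fun h' => absurd h' (by omega)⟩
    · obtain ⟨h1, -⟩ := ih (b - 1 - (a + 1)) (by omega) (a + 1) (b - 1) (by omega) (by omega)
        (by omega) rfl
      have h2 := lc_ratio hpos hlc a (b - 1) ha (by omega) (by omega)
      have e1 : a + 1 + (b - 1) = a + b := by omega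
      have e2 : b - 1 + 1 = b := by omega
      rw [e1] at h1
      rw [e2] at h2
      exact ⟨by linarith, fun _ => by linarith⟩

lemma lc_caterpillar (a : ℕ) : ∀ b : ℕ, 1 ≤ a → a ≤ b → a + b ≤ K + 1 →
    m a * m b ≤ m 1 * m (a + b - 1) ∧ (2 ≤ a → m a * m b < m 1 * m (a + b - 1)) := by
  induction a with
  | zero => intro b h; omega
  | succ a ih =>
    intro b _ hab hK
    rcases Nat.eq_zero_or_pos a with h | h
    · subst h
      have : 0 + 1 + b - 1 = b := by omega
      rw [this]
      exact ⟨le_rfl, fun h' => absurd h' (by omega)⟩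
    · obtain ⟨h1, -⟩ := ih (b + 1) h (by omega) (by omega)
      have h2 := lc_ratio hpos hlc a b h (by omega) (by omega)
      have e1 : a + (b + 1) - 1 = a + 1 + b - 1 := by omega
      rw [e1] at h1
      exact ⟨by linarith, fun _ => by linarith⟩

end Seq

lemma size_pos (S : SpTree) : 1 ≤ S.size := by
  induction S with
  | leaf => simp [SpTree.size]
  | node l r hl hr => simp only [SpTree.size]; omega

lemma one_lt_V_P (S : SpTree) {z : ℝ} (hz : 0 < z) : 1 < V S z ∧ 1 < P S z := by
  induction S with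
  | leaf =>
    have h1 : 1 < P .leaf z := by simp only [P]; linarith
    refine ⟨?_, h1⟩
    rw [V_eq, ← phi_one]; exact phi_strict h1 (by norm_num)
  | node l r hl hr =>
    have h1 : 1 < P (.node l r) z := by
      simp only [P]; nlinarith [hl.1, hr.1]
    refine ⟨?_, h1⟩
    rw [V_eq, ← phi_one]; exact phi_strict h1 (by norm_num)

lemma P_mono (T : SpTree) {x y : ℝ} (hx : 0 ≤ x) (hxy : x ≤ y) : P T x ≤ P T y ∧ V T x ≤ V T y := by
  induction T with
  | leaf =>
    have : P .leaf x ≤ P .leaf y := by simp only [P]; linarith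
    exact ⟨this, by rw [V_eq, V_eq]; exact phi_mono this⟩
  | node l r hl hr =>
    have : P (.node l r) x ≤ P (.node l r) y := by
      simp only [P]
      exact mul_le_mul hl.2 hr.2 (by linarith [one_le_V r hx])
        (by linarith [one_le_V l (hx.trans hxy)])
    exact ⟨this, by rw [V_eq, V_eq]; exact phi_mono this⟩

/-! ### Caterpillars -/

lemma CT_succ (k : ℕ) (hk : 1 ≤ k) : CT (k + 1) = .node (CT k) .leaf := by
  obtain ⟨j, rfl⟩ : ∃ j, k = j + 1 := ⟨k - 1, by omega⟩
  rfl

lemma size_CT (k : ℕ) (hk : 1 ≤ k) : (CT k).size = k := by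
  induction k, hk using Nat.le_induction with
  | base => rfl
  | succ k hk ih => rw [CT_succ k hk]; simp [SpTree.size, ih]

/-- `S` is a caterpillar (up to order of children) -/
def IsCat : SpTree → Prop
  | .leaf => True
  | .node l r => (l = .leaf ∧ IsCat r) ∨ (r = .leaf ∧ IsCat l)

lemma H_comm (l r : SpTree) : H (.node l r) = H (.node r l) := by
  simp only [H]; congr 1; ring

lemma P_comm (l r : SpTree) (z : ℝ) : P (.node l r) z = P (.node r l) z := by
  simp only [P]; ring

lemma H_node_congr {l l' r r' : SpTree} (h1 : H l = H l') (h2 : H r = H r') :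
    H (.node l r) = H (.node l' r') := by
  simp only [H, h1, h2]

lemma isCat_spec (S : SpTree) (hS : IsCat S) : H S = H (CT S.size) := by
  induction S with
  | leaf => rfl
  | node l r hl hr =>
    rcases hS with ⟨h1, h2⟩ | ⟨h1, h2⟩
    · subst h1
      have e : (SpTree.node .leaf r).size = r.size + 1 := by simp [SpTree.size]; ring
      rw [e, CT_succ _ (size_pos r), H_comm]
      exact H_node_congr (hr h2) rfl
    · subst h1
      have e : (SpTree.node l .leaf).size = l.size + 1 := by simp [SpTree.size]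
      rw [e, CT_succ _ (size_pos l)]
      exact H_node_congr (hl h2) rfl

lemma P_CT_succ (k : ℕ) (hk : 1 ≤ k) (z : ℝ) :
    P (CT (k + 1)) z = V (CT k) z * V (CT 1) z := by
  rw [CT_succ k hk]; rfl

lemma V_CT_succ (k : ℕ) (hk : 1 ≤ k) (z : ℝ) :
    V (CT (k + 1)) z = phi (V (CT k) z * V (CT 1) z) := by
  rw [V_eq, P_CT_succ k hk]

lemma P_CT_le_of_le {z : ℝ} (hz : 0 < z) {k : ℕ} (hP : P (CT k) z ≤ 5 / 4) :
    ∀ j, 1 ≤ j → j ≤ k → P (CT j) z ≤ 5 / 4 := by
  intro j hj hjk
  induction k, hjk using Nat.le_induction with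
  | base => exact hP
  | succ k hk ih =>
    apply ih
    rw [CT_succ k (by omega)] at hP
    exact (sub_le hz.le hP).2.2.1

lemma V_CT_lt {z : ℝ} (hz : 0 < z) (k : ℕ) (hk : 1 ≤ k) (hP : P (CT k) z < 5 / 4) :
    V (CT k) z < V (CT (k + 1)) z := by
  have h0 := (one_lt_V_P (CT 1) hz).1
  have h1 := (one_lt_V_P (CT k) hz).1
  rw [V_CT_succ k hk]
  rcases le_or_gt (V (CT k) z * V (CT 1) z) (5 / 4) with h | h
  · have := le_phi h
    nlinarith
  · rw [phi_of_ge h.le, V_eq, ← phi_of_ge le_rfl]
    exact phi_strict hP hP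

lemma P_CT_lt_of_lt {z : ℝ} (hz : 0 < z) {k : ℕ} (hP : P (CT k) z ≤ 5 / 4) :
    ∀ j, 1 ≤ j → j < k → P (CT j) z < 5 / 4 := by
  intro j hj hjk
  have h1 := P_CT_le_of_le hz hP (j + 1) (by omega) (by omega)
  rw [P_CT_succ j hj] at h1
  have h0 := (one_lt_V_P (CT 1) hz).1
  have h2 := (one_lt_V_P (CT j) hz).1
  by_contra hcon
  push Not at hcon
  rw [V_eq (CT j), phi_of_ge hcon] at h1
  nlinarith

lemma CT_logconvex {z : ℝ} (hz : 0 < z) {K : ℕ} (hP : P (CT K) z ≤ 5 / 4) (j : ℕ) (hj : 1 ≤ j)
    (hK : j + 2 ≤ K) : V (CT (j + 1)) z ^ 2 < V (CT j) z * V (CT (j + 2)) z := by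
  have h0 := (one_lt_V_P (CT 1) hz).1
  have h1 := (one_lt_V_P (CT j) hz).1
  have hlt := V_CT_lt hz j hj (P_CT_lt_of_lt hz hP j hj (by omega))
  have hP2 := P_CT_le_of_le hz hP (j + 2) (by omega) hK
  rw [P_CT_succ (j + 1) (by omega)] at hP2
  have h2 := phi_ratio (s := V (CT j) z * V (CT 1) z) (t := V (CT (j + 1)) z * V (CT 1) z)
    (by nlinarith) (by nlinarith) hP2
  rw [← V_CT_succ j hj, ← V_CT_succ (j + 1) (by omega)] at h2
  have h3 : V (CT 1) z * V (CT (j + 1)) z ^ 2 < V (CT 1) z * (V (CT j) z * V (CT (j + 2)) z) := by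
    nlinarith
  exact lt_of_mul_lt_mul_left h3 (by linarith)

/-- The caterpillar has the largest value; strictly so unless the tree is a caterpillar. -/
theorem caterpillar_max {z : ℝ} (hz : 0 < z) (S : SpTree) :
    P (CT S.size) z ≤ 5 / 4 →
      P S z ≤ P (CT S.size) z ∧ (¬ IsCat S → P S z < P (CT S.size) z) := by
  induction S with
  | leaf =>
    intro _
    exact ⟨le_rfl, fun h => absurd trivial h⟩
  | node l r hl hr =>
    intro hP
    set a := l.size with ha
    set b := r.size with hb
    have ha1 : 1 ≤ a := size_pos l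
    have hb1 : 1 ≤ b := size_pos r
    have hsize : (SpTree.node l r).size = a + b := rfl
    rw [hsize] at hP ⊢
    have hPa := P_CT_le_of_le hz hP a ha1 (by omega)
    have hPb := P_CT_le_of_le hz hP b hb1 (by omega)
    obtain ⟨hl1, hl2⟩ := hl hPa
    obtain ⟨hr1, hr2⟩ := hr hPb
    have hVl : V l z ≤ V (CT a) z := by rw [V_eq, V_eq]; exact phi_mono hl1
    have hVr : V r z ≤ V (CT b) z := by rw [V_eq, V_eq]; exact phi_mono hr1
    have p1 := one_lt_V_P l hz
    have p2 := one_lt_V_P r hz
    have hprod : P (.node l r) z ≤ V (CT a) z * V (CT b) z := by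
      simp only [P]
      exact mul_le_mul hVl hVr (by linarith) (by linarith)
    have hroot : P (CT (a + b)) z = V (CT 1) z * V (CT (a + b - 1)) z := by
      obtain ⟨c, hc⟩ : ∃ c, a + b = c + 1 := ⟨a + b - 1, by omega⟩
      rw [hc, P_CT_succ c (by omega)]
      simp only [Nat.add_sub_cancel]; ring
    have hpos : ∀ j, 1 ≤ j → j ≤ a + b → 0 < V (CT j) z := fun j _ _ => by
      linarith [one_lt_V_P (CT j) hz]
    have hlc : ∀ j, 1 ≤ j → j + 2 ≤ a + b →
        V (CT (j + 1)) z ^ 2 < V (CT j) z * V (CT (j + 2)) z := fun j hj hK =>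
      CT_logconvex hz hP j hj hK
    have hcomp : V (CT a) z * V (CT b) z ≤ V (CT 1) z * V (CT (a + b - 1)) z ∧
        (2 ≤ a → 2 ≤ b → V (CT a) z * V (CT b) z < V (CT 1) z * V (CT (a + b - 1)) z) := by
      rcases le_total a b with hab | hab
      · have := lc_caterpillar (m := fun j => V (CT j) z) hpos hlc a b ha1 hab (by omega)
        exact ⟨this.1, fun h _ => this.2 h⟩
      · have := lc_caterpillar (m := fun j => V (CT j) z) hpos hlc b a hb1 hab (by omega)
        rw [add_comm b a, mul_comm (V (CT b) z)] at this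
        exact ⟨this.1, fun _ h => this.2 h⟩
    rw [hroot]
    refine ⟨by linarith [hcomp.1], ?_⟩
    intro hcat
    rcases Nat.lt_or_ge 1 a with h2a | h2a
    · rcases Nat.lt_or_ge 1 b with h2b | h2b
      · linarith [hcomp.2 h2a h2b]
      · -- r is a leaf, l not a caterpillar
        have hr' : r = .leaf := by
          cases r with
          | leaf => rfl
          | node x y =>
            have h1 := size_pos x
            have h2 := size_pos y
            simp only [SpTree.size] at hb
            omega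
        have hl' : ¬ IsCat l := fun h => hcat (Or.inr ⟨hr', h⟩)
        have h5 := hl2 hl'
        have : V l z < V (CT a) z := by
          rw [V_eq, V_eq]; exact phi_strict h5 (by linarith)
        have hlt : P (.node l r) z < V (CT a) z * V (CT b) z := by
          simp only [P]
          exact mul_lt_mul this hVr (by linarith) (by linarith [one_lt_V_P (CT a) hz])
        linarith [hcomp.1]
    · have hl' : l = .leaf := by
        cases l with
        | leaf => rfl
        | node x y =>
          have h1 := size_pos x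
          have h2 := size_pos y
          simp only [SpTree.size] at ha
          omega
      have hr' : ¬ IsCat r := fun h => hcat (Or.inl ⟨hl', h⟩)
      have h5 := hr2 hr'
      have : V r z < V (CT b) z := by
        rw [V_eq, V_eq]; exact phi_strict h5 (by linarith)
      have hlt : P (.node l r) z < V (CT a) z * V (CT b) z := by
        simp only [P]
        exact mul_lt_mul' hVl this (by linarith) (by linarith [one_lt_V_P (CT a) hz])
      linarith [hcomp.1]

/-- The radius of convergence is smallest for the caterpillar. -/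
theorem rho_caterpillar (S : SpTree) (hS : ¬ IsCat S) : rho (CT S.size) < rho S := by
  have h := (caterpillar_max (rho_pos (CT S.size)) S (P_rho _).le).2 hS
  rw [P_rho] at h
  by_contra hcon
  push Not at hcon
  have h1 := P_rho S
  have h2 := (P_mono S (rho_pos S).le hcon).1
  linarith

end Pool.Agent.Lib.MP_f5c34b_co
end

section

namespace Pool.Agent.Lib.MP_f5c34b_co

open PowerSeries Finset Filter Topology

/-! ### Balanced trees -/

lemma BT_eq (k : ℕ) (hk : 2 ≤ k) : BT k = .node (BT (k / 2)) (BT ((k + 1) / 2)) := by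
  obtain ⟨j, rfl⟩ : ∃ j, k = j + 2 := ⟨k - 2, by omega⟩
  rw [BT]

lemma size_BT (k : ℕ) : 1 ≤ k → (BT k).size = k := by
  induction k using Nat.strong_induction_on with
  | _ k ih =>
    intro hk
    rcases Nat.lt_or_ge k 2 with h | h
    · have : k = 1 := by omega
      subst this; rw [BT]; rfl
    · rw [BT_eq k h]
      simp only [SpTree.size]
      rw [ih (k / 2) (by omega) (by omega), ih ((k + 1) / 2) (by omega) (by omega)]
      omega

/-- `S` is balanced: at every internal node the sizes of the subtrees differ by at most one. -/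
def IsBal : SpTree → Prop
  | .leaf => True
  | .node l r => IsBal l ∧ IsBal r ∧ l.size ≤ r.size + 1 ∧ r.size ≤ l.size + 1

lemma isBal_BT (k : ℕ) : IsBal (BT k) := by
  induction k using Nat.strong_induction_on with
  | _ k ih =>
    rcases Nat.lt_or_ge k 2 with h | h
    · have : k = 0 ∨ k = 1 := by omega
      rcases this with rfl | rfl <;> (rw [BT]; trivial)
    · rw [BT_eq k h]
      refine ⟨ih _ (by omega), ih _ (by omega), ?_, ?_⟩
      · rw [size_BT _ (by omega), size_BT _ (by omega)]; omega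
      · rw [size_BT _ (by omega), size_BT _ (by omega)]; omega

lemma isBal_spec (S : SpTree) (hS : IsBal S) : H S = H (BT S.size) := by
  induction S with
  | leaf => simp only [SpTree.size]; rw [BT]
  | node l r hl hr =>
    obtain ⟨h1, h2, h3, h4⟩ := hS
    have ha := size_pos l
    have hb := size_pos r
    have hsize : (SpTree.node l r).size = l.size + r.size := rfl
    rw [hsize, BT_eq _ (by omega)]
    rcases le_total l.size r.size with h | h
    · have e1 : (l.size + r.size) / 2 = l.size := by omega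
      have e2 : (l.size + r.size + 1) / 2 = r.size := by omega
      rw [e1, e2]
      exact H_node_congr (hl h1) (hr h2)
    · have e1 : (l.size + r.size) / 2 = r.size := by omega
      have e2 : (l.size + r.size + 1) / 2 = l.size := by omega
      rw [e1, e2, H_comm]
      exact H_node_congr (hr h2) (hl h1)

lemma P_BT (k : ℕ) (hk : 2 ≤ k) (z : ℝ) :
    P (BT k) z = V (BT (k / 2)) z * V (BT ((k + 1) / 2)) z := by
  rw [BT_eq k hk]; rfl

lemma P_le_of_V_le {S : SpTree} {z : ℝ} (h : V S z ≤ 5 / 4) : P S z ≤ 5 / 4 := by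
  by_contra hc
  rw [V_eq, phi_of_ge (by linarith)] at h
  norm_num at h

lemma P_BT_lt {z : ℝ} (hz : 0 < z) (j : ℕ) : 1 ≤ j → P (BT (j + 1)) z ≤ 5 / 4 →
    P (BT j) z < P (BT (j + 1)) z := by
  induction j using Nat.strong_induction_on with
  | _ j ih =>
    intro hj hP
    rw [P_BT (j + 1) (by omega)] at hP ⊢
    have e : (j + 1 + 1) / 2 = j / 2 + 1 := by omega
    rw [e] at hP ⊢
    have p1 := (one_lt_V_P (BT ((j + 1) / 2)) hz).1
    have p2 := (one_lt_V_P (BT (j / 2 + 1)) hz).1
    have hV : V (BT (j / 2 + 1)) z ≤ 5 / 4 := by nlinarith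
    rcases Nat.lt_or_ge j 2 with h | h
    · have : j = 1 := by omega
      subst this
      have e1 : BT 1 = .leaf := by rw [BT]
      simp only [show (1 + 1) / 2 = 1 from rfl, show 1 / 2 + 1 = 1 from rfl] at *
      rw [e1] at *
      have h1 := P_le_of_V_le hV
      have h2 := le_phi h1
      rw [← V_eq] at h2
      nlinarith
    · have h1 := ih (j / 2) (by omega) (by omega) (P_le_of_V_le hV)
      rw [P_BT j h]
      have h2 : V (BT (j / 2)) z < V (BT (j / 2 + 1)) z := by
        rw [V_eq, V_eq]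
        exact phi_strict h1 (lt_of_lt_of_le h1 (P_le_of_V_le hV))
      rw [mul_comm]
      exact mul_lt_mul_of_pos_left h2 (by linarith)

lemma P_BT_le_of_le {z : ℝ} (hz : 0 < z) {K : ℕ} (hP : P (BT K) z ≤ 5 / 4) :
    ∀ j, 1 ≤ j → j ≤ K → P (BT j) z ≤ 5 / 4 := by
  intro j hj hjk
  induction K, hjk using Nat.le_induction with
  | base => exact hP
  | succ k hk ih =>
    apply ih
    exact ((P_BT_lt hz k (by omega) hP).le).trans hP

lemma V_BT_lt {z : ℝ} (hz : 0 < z) (j : ℕ) (hj : 1 ≤ j) (hP : P (BT (j + 1)) z ≤ 5 / 4) :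
    V (BT j) z < V (BT (j + 1)) z := by
  have h1 := P_BT_lt hz j hj hP
  rw [V_eq, V_eq]
  exact phi_strict h1 (lt_of_lt_of_le h1 hP)

lemma BT_logconvex {z : ℝ} (hz : 0 < z) {K : ℕ} (hP : P (BT K) z ≤ 5 / 4) (j : ℕ) :
    1 ≤ j → j + 2 ≤ K → V (BT (j + 1)) z ^ 2 < V (BT j) z * V (BT (j + 2)) z := by
  induction j using Nat.strong_induction_on with
  | _ j ih =>
    intro hj hK
    have hP2 := P_BT_le_of_le hz hP (j + 2) (by omega) hK
    have hP1 := P_BT_le_of_le hz hP (j + 1) (by omega) (by omega)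
    have hlt1 := P_BT_lt hz (j + 1) (by omega) hP2
    have hlt0 := P_BT_lt hz j (by omega) hP1
    rcases Nat.lt_or_ge j 2 with h | h
    · have : j = 1 := by omega
      subst this
      have e3 : P (BT 3) z = V (BT 1) z * V (BT 2) z := P_BT 3 (by norm_num) z
      have e2 : P (BT 2) z = V (BT 1) z * V (BT 1) z := P_BT 2 (by norm_num) z
      simp only [show 1 + 1 = 2 from rfl, show 1 + 2 = 3 from rfl] at *
      have p1 := (one_lt_V_P (BT 1) hz).1
      have p2 := (one_lt_V_P (BT 2) hz).2
      have h2 := phi_ratio p2 hlt1 hP2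
      rw [← V_eq, ← V_eq, e2, e3] at h2
      have h3 : V (BT 1) z * V (BT 2) z ^ 2 < V (BT 1) z * (V (BT 1) z * V (BT 3) z) := by
        nlinarith
      exact lt_of_mul_lt_mul_left h3 (by linarith)
    · have p0 := (one_lt_V_P (BT j) hz).2
      have hq : P (BT (j + 1)) z ^ 2 ≤ P (BT j) z * P (BT (j + 2)) z := by
        rw [P_BT j h, P_BT (j + 1) (by omega), P_BT (j + 2) (by omega)]
        rcases Nat.even_or_odd' j with ⟨a, rfl | rfl⟩
        · have e1 : 2 * a / 2 = a := by omega
          have e2 : (2 * a + 1) / 2 = a := by omega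
          have e3 : (2 * a + 1 + 1) / 2 = a + 1 := by omega
          have e5 : (2 * a + 2 + 1) / 2 = a + 1 := by omega
          simp only [e1, e2, e3, e5]
          exact le_of_eq (by ring)
        · have e1 : (2 * a + 1) / 2 = a := by omega
          have e2 : (2 * a + 1 + 1) / 2 = a + 1 := by omega
          have e3 : (2 * a + 1 + 1 + 1) / 2 = a + 1 := by omega
          have e5 : (2 * a + 1 + 2 + 1) / 2 = a + 2 := by omega
          simp only [e1, e2, e3, e5]
          have h1 := ih a (by omega) (by omega) (by omega)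
          have p1 := (one_lt_V_P (BT (a + 1)) hz).1
          have : V (BT (a + 1)) z ^ 2 * V (BT (a + 1)) z ^ 2 ≤
              V (BT (a + 1)) z ^ 2 * (V (BT a) z * V (BT (a + 2)) z) :=
            mul_le_mul_of_nonneg_left h1.le (by positivity)
          nlinarith
      have := phi_logconvex p0.le hlt0 hlt1 hP2 hq
      rw [← V_eq, ← V_eq, ← V_eq] at this
      exact this

/-- The balanced tree has the smallest value; strictly so unless the tree is balanced. -/
theorem balanced_min {z : ℝ} (hz : 0 < z) (S : SpTree) :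
    P S z ≤ 5 / 4 →
      P (BT S.size) z ≤ P S z ∧ (¬ IsBal S → P (BT S.size) z < P S z) := by
  induction S with
  | leaf =>
    intro _
    have : BT SpTree.leaf.size = .leaf := by simp only [SpTree.size]; rw [BT]
    rw [this]
    exact ⟨le_rfl, fun h => absurd trivial h⟩
  | node l r hl hr =>
    intro hP
    obtain ⟨q1, q2, q3, q4⟩ := sub_le hz.le hP
    set a := l.size with ha
    set b := r.size with hb
    have ha1 : 1 ≤ a := size_pos l
    have hb1 : 1 ≤ b := size_pos r
    have hsize : (SpTree.node l r).size = a + b := rfl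
    rw [hsize]
    obtain ⟨hl1, hl2⟩ := hl q3
    obtain ⟨hr1, hr2⟩ := hr q4
    have hVl : V (BT a) z ≤ V l z := by rw [V_eq, V_eq]; exact phi_mono hl1
    have hVr : V (BT b) z ≤ V r z := by rw [V_eq, V_eq]; exact phi_mono hr1
    have p1 := one_lt_V_P (BT a) hz
    have p2 := one_lt_V_P (BT b) hz
    have hprod : V (BT a) z * V (BT b) z ≤ P (.node l r) z := by
      simp only [P]
      exact mul_le_mul hVl hVr (by linarith) (by linarith)
    have hcomp : P (BT (a + b)) z ≤ V (BT a) z * V (BT b) z ∧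
        ((a + 2 ≤ b ∨ b + 2 ≤ a) → P (BT (a + b)) z < V (BT a) z * V (BT b) z) := by
      rw [P_BT (a + b) (by omega)]
      rcases le_total a b with hab | hab
      · have hPb : P (BT b) z ≤ 5 / 4 := hr1.trans q4
        have hpos : ∀ j, 1 ≤ j → j ≤ b → 0 < V (BT j) z := fun j _ _ => by
          linarith [one_lt_V_P (BT j) hz]
        have := lc_balanced (m := fun j => V (BT j) z) hpos
          (fun j hj hK => BT_logconvex hz hPb j hj hK) (b - a) a b ha1 hab le_rfl rfl
        refine ⟨this.1, ?_⟩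
        rintro (h | h)
        · exact this.2 h
        · omega
      · have hPa : P (BT a) z ≤ 5 / 4 := hl1.trans q3
        have hpos : ∀ j, 1 ≤ j → j ≤ a → 0 < V (BT j) z := fun j _ _ => by
          linarith [one_lt_V_P (BT j) hz]
        have := lc_balanced (m := fun j => V (BT j) z) hpos
          (fun j hj hK => BT_logconvex hz hPa j hj hK) (a - b) b a hb1 hab le_rfl rfl
        rw [add_comm b a, mul_comm (V (BT b) z) (V (BT a) z)] at this
        refine ⟨this.1, ?_⟩
        rintro (h | h)
        · omega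
        · exact this.2 h
    refine ⟨by linarith [hcomp.1], ?_⟩
    intro hbal
    by_cases hd : a + 2 ≤ b ∨ b + 2 ≤ a
    · linarith [hcomp.2 hd]
    · by_cases hbl : IsBal l
      · have hbr : ¬ IsBal r := fun h => hbal ⟨hbl, h, by omega, by omega⟩
        have h5 := hr2 hbr
        have : V (BT b) z < V r z := by
          rw [V_eq, V_eq]; exact phi_strict h5 (by linarith)
        have hlt : V (BT a) z * V (BT b) z < P (.node l r) z := by
          simp only [P]
          exact mul_lt_mul' hVl this (by linarith) (by linarith)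
        linarith [hcomp.1]
      · have h5 := hl2 hbl
        have : V (BT a) z < V l z := by
          rw [V_eq, V_eq]; exact phi_strict h5 (by linarith)
        have hlt : V (BT a) z * V (BT b) z < P (.node l r) z := by
          simp only [P]
          exact mul_lt_mul this hVr (by linarith) (by linarith)
        linarith [hcomp.1]

/-- The radius of convergence is largest for the balanced tree. -/
theorem rho_balanced (S : SpTree) (hS : ¬ IsBal S) : rho S < rho (BT S.size) := by
  have h := (balanced_min (rho_pos S) S (P_rho _).le).2 hS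
  rw [P_rho] at h
  by_contra hcon
  push Not at hcon
  have h1 := P_rho (BT S.size)
  have h2 := (P_mono (BT S.size) (rho_pos _).le hcon).1
  linarith

/-! ### Finiteness -/

lemma finite_size (k : ℕ) : {S : SpTree | S.size = k}.Finite := by
  induction k using Nat.strong_induction_on with
  | _ k ih =>
    have hsub : {S : SpTree | S.size = k} ⊆ {SpTree.leaf} ∪
        ⋃ i ∈ Finset.range k, ⋃ j ∈ Finset.range k,
          Set.image2 SpTree.node {S | S.size = i} {S | S.size = j} := by
      intro S hS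
      cases S with
      | leaf => simp
      | node l r =>
        right
        have hS' : l.size + r.size = k := hS
        have h1 := size_pos l
        have h2 := size_pos r
        simp only [Set.mem_iUnion, Finset.mem_range]
        exact ⟨l.size, by omega, r.size, by omega, ⟨l, rfl, r, rfl, rfl⟩⟩
    refine Set.Finite.subset ?_ hsub
    refine (Set.finite_singleton _).union ?_
    refine Set.Finite.biUnion (Finset.finite_toSet _) fun i hi => ?_
    refine Set.Finite.biUnion (Finset.finite_toSet _) fun j hj => ?_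
    simp only [Finset.coe_range, Set.mem_Iio] at hi hj
    exact Set.Finite.image2 _ (ih i hi) (ih j hj)

/-- comparison of two trees with different radii -/
lemma eventually_lt_of_rho_lt {S T : SpTree} (hlt : rho T < rho S) :
    ∀ᶠ n : ℕ in atTop, h S n < h T n := by
  have h1 : 1 / rho S < 1 / rho T := one_div_lt_one_div_of_lt (rho_pos T) hlt
  obtain ⟨β, hβ1, hβ2⟩ := exists_between h1
  have e1 := (tendsto_growth S).eventually (gt_mem_nhds hβ1)
  have e2 := (tendsto_growth T).eventually (lt_mem_nhds hβ2)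
  filter_upwards [e1, e2] with n hn1 hn2
  by_contra hcon
  push Not at hcon
  have := Real.rpow_le_rpow (h_nonneg T n) hcon (by positivity : (0 : ℝ) ≤ 1 / (n : ℝ))
  linarith

theorem q1_main (k : ℕ) : ∃ N : ℕ, ∀ n ≥ N, ∀ S : SpTree, S.size = k →
    h (BT k) n ≤ h S n ∧ h S n ≤ h (CT k) n := by
  have hev : ∀ S ∈ {S : SpTree | S.size = k}, ∀ᶠ n : ℕ in atTop,
      h (BT k) n ≤ h S n ∧ h S n ≤ h (CT k) n := by
    rintro S rfl
    have h1 : ∀ᶠ n : ℕ in atTop, h (BT S.size) n ≤ h S n := by
      by_cases hb : IsBal S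
      · refine Eventually.of_forall fun n => ?_
        rw [h, h, ← isBal_spec S hb]
      · filter_upwards [eventually_lt_of_rho_lt (rho_balanced S hb)] with n hn
        exact hn.le
    have h2 : ∀ᶠ n : ℕ in atTop, h S n ≤ h (CT S.size) n := by
      by_cases hb : IsCat S
      · refine Eventually.of_forall fun n => ?_
        rw [h, h, ← isCat_spec S hb]
      · filter_upwards [eventually_lt_of_rho_lt (rho_caterpillar S hb)] with n hn
        exact hn.le
    exact h1.and h2
  have := ((finite_size k).eventually_all (l := atTop)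
    (p := fun S n => h (BT k) n ≤ h S n ∧ h S n ≤ h (CT k) n)).2 hev
  obtain ⟨N, hN⟩ := eventually_atTop.1 this
  exact ⟨N, fun n hn S hS => hN n hn S hS⟩

end Pool.Agent.Lib.MP_f5c34b_co
end
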