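import Mathlib
import Pool.Agent.Lib.MP_f5c34b_co.Balanced

namespace Pool.Agent.Lib.MP_f5c34b_co

open PowerSeries Finset Filter Topology

/-! ### Linear growth for balanced trees -/

lemma P_lower (S : SpTree) {z : ℝ} (hz : 0 ≤ z) (hP : P S z ≤ 5 / 4) :
    1 + S.size * z ≤ P S z := by
  induction S with
  | leaf => simp [P, SpTree.size]
  | node l r hl hr =>
    obtain ⟨q1, q2, q3, q4⟩ := sub_le hz hP
    have h1 := (hl q3).trans (le_phi q3)
    have h2 := (hr q4).trans (le_phi q4)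
    rw [← V_eq] at h1 h2
    have a1 : (0 : ℝ) ≤ l.size * z := by positivity
    have a2 : (0 : ℝ) ≤ r.size * z := by positivity
    have e : ((SpTree.node l r).size : ℝ) = l.size + r.size := by simp [SpTree.size]
    rw [e]
    simp only [P]
    calc 1 + ((l.size : ℝ) + r.size) * z ≤ (1 + l.size * z) * (1 + r.size * z) := by nlinarith
      _ ≤ V l z * V r z := mul_le_mul h1 h2 (by linarith) (by linarith)

lemma rho_upper (S : SpTree) : S.size * rho S ≤ 1 / 4 := by
  have := P_lower S (rho_pos S).le (P_rho S).le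
  rw [P_rho] at this
  linarith

/-- if `t ≤ 3 g - 1 - g^2` and `g ≤ 3/2` then `phi t ≤ g`. -/
lemma phi_le_of {t g : ℝ} (_hg : g ≤ 3 / 2) (h : t ≤ 3 * g - 1 - g ^ 2) : phi t ≤ g := by
  have ht : t ≤ 5 / 4 := by nlinarith [sq_nonneg (g - 3 / 2)]
  by_contra hcon
  push Not at hcon
  have h1 := phi_eq ht
  have h2 := phi_le t
  have : 0 < (phi t - g) * (3 - g - phi t) := mul_pos (by linarith) (by linarith)
  nlinarith

/-- the comparison function -/
noncomputable def bnd (x : ℝ) : ℝ := 1 + x + 4 * x ^ 2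

lemma bnd_step {x y : ℝ} (hx : 0 < x) (hy : 0 < y) (h1 : x ≤ 2 * y) (h2 : y ≤ 2 * x)
    (hxy : x + y ≤ 1 / 20) :
    bnd x * bnd y ≤ 3 * bnd (x + y) - 1 - bnd (x + y) ^ 2 := by
  have k1 : 0 ≤ (2 * x - y) * (2 * y - x) := mul_nonneg (by linarith) (by linarith)
  -- x^2 + y^2 ≤ 5/9 (x+y)^2
  have k2 : x ^ 2 + y ^ 2 ≤ 5 / 9 * (x + y) ^ 2 := by nlinarith
  have k3 : x * y ≤ (x + y) ^ 2 / 4 := by nlinarith [sq_nonneg (x - y)]
  set s := x + y with hs
  have hs0 : 0 < s := by linarith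
  have e : bnd x * bnd y = 1 + s + 4 * (x ^ 2 + y ^ 2) + x * y + 4 * (x * y) * s
      + 16 * (x * y) ^ 2 := by
    unfold bnd; rw [hs]; ring
  have e2 : 3 * bnd s - 1 - bnd s ^ 2 = 1 + s + 4 * s ^ 2 - (s + 4 * s ^ 2) ^ 2 := by
    unfold bnd; ring
  rw [e, e2]
  have hxy0 : 0 ≤ x * y := by positivity
  have k4 : (x * y) ^ 2 ≤ (s ^ 2 / 4) ^ 2 := pow_le_pow_left₀ hxy0 k3 2
  have k5 : 4 * (x * y) * s ≤ 4 * (s ^ 2 / 4) * s := by
    apply mul_le_mul_of_nonneg_right _ hs0.le; linarith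
  have k6 : s ^ 2 * (9 * s + 17 * s ^ 2) ≤ s ^ 2 * (19 / 36) := by
    apply mul_le_mul_of_nonneg_left _ (by positivity)
    nlinarith
  nlinarith

lemma bnd_mono {x y : ℝ} (hx : 0 ≤ x) (h : x ≤ y) : bnd x ≤ bnd y := by
  unfold bnd; nlinarith

lemma V_BT_upper {z : ℝ} (hz : 0 < z) (k : ℕ) : 1 ≤ k → k * z ≤ 1 / 20 →
    V (BT k) z ≤ bnd (k * z) ∧ P (BT k) z ≤ 3 * bnd (k * z) - 1 - bnd (k * z) ^ 2 := by
  induction k using Nat.strong_induction_on with
  | _ k ih =>
    intro hk hkz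
    have hkz0 : 0 < k * z := by positivity
    have hb : bnd (k * z) ≤ 3 / 2 := by
      refine (bnd_mono hkz0.le hkz).trans ?_
      unfold bnd; norm_num
    have hP : P (BT k) z ≤ 3 * bnd (k * z) - 1 - bnd (k * z) ^ 2 := by
      rcases Nat.lt_or_ge k 2 with h | h
      · have : k = 1 := by omega
        subst this
        have e1 : BT 1 = .leaf := by rw [BT]
        rw [e1]
        simp only [P, Nat.cast_one, one_mul] at hkz ⊢
        have e2 : 3 * bnd z - 1 - bnd z ^ 2 = 1 + z + z ^ 2 * (3 - 8 * z - 16 * z ^ 2) := by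
          unfold bnd; ring
        rw [e2]
        have : 0 ≤ z ^ 2 * (3 - 8 * z - 16 * z ^ 2) := by
          apply mul_nonneg (by positivity); nlinarith
        linarith
      · rw [P_BT k h]
        set a := k / 2 with ha
        set b := (k + 1) / 2 with hb'
        have hab : a + b = k := by omega
        have ha1 : 1 ≤ a := by omega
        have hb1 : 1 ≤ b := by omega
        have hab2 : a ≤ b := by omega
        have hab3 : b ≤ 2 * a := by omega
        have c1 : (a : ℝ) + b = k := by exact_mod_cast hab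
        have c2 : (1 : ℝ) ≤ a := by exact_mod_cast ha1
        have c3 : (1 : ℝ) ≤ b := by exact_mod_cast hb1
        have c4 : (a : ℝ) ≤ b := by exact_mod_cast hab2
        have c5 : (b : ℝ) ≤ 2 * a := by exact_mod_cast hab3
        have haz : (a : ℝ) * z ≤ 1 / 20 := by nlinarith
        have hbz : (b : ℝ) * z ≤ 1 / 20 := by nlinarith
        have i1 := (ih a (by omega) ha1 haz).1
        have i2 := (ih b (by omega) hb1 hbz).1
        have p1 := one_lt_V_P (BT a) hz
        have p2 := one_lt_V_P (BT b) hz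
        have haz0 : 0 < (a : ℝ) * z := by positivity
        have hbz0 : 0 < (b : ℝ) * z := by positivity
        have hkz' : (k : ℝ) * z = a * z + b * z := by rw [← c1]; ring
        rw [hkz'] at hkz ⊢
        refine le_trans ?_ (bnd_step haz0 hbz0 (by nlinarith) (by nlinarith) hkz)
        exact mul_le_mul i1 i2 (by linarith) (by linarith)
    refine ⟨?_, hP⟩
    rw [V_eq]
    exact phi_le_of hb hP

lemma rho_BT_lower (k : ℕ) (hk : 1 ≤ k) : 1 / (20 * k) ≤ rho (BT k) := by
  have hk' : (0 : ℝ) < k := by exact_mod_cast hk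
  set z : ℝ := 1 / (20 * k) with hz
  have hz0 : 0 < z := by positivity
  have hkz : k * z = 1 / 20 := by rw [hz]; field_simp
  have h1 := (V_BT_upper hz0 k hk hkz.le).2
  rw [hkz] at h1
  have h2 : P (BT k) z < 5 / 4 := by
    refine lt_of_le_of_lt h1 ?_
    unfold bnd; norm_num
  by_contra hcon
  push Not at hcon
  have h3 := (P_mono (BT k) (rho_pos _).le hcon.le).1
  rw [P_rho] at h3
  linarith

/-! ### Quadratic growth for caterpillars -/

lemma CT_step {z : ℝ} (hz : 0 < z) {K : ℕ} (hP : P (CT K) z ≤ 5 / 4) (j : ℕ) (hj : 1 ≤ j)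
    (hK : j + 1 ≤ K) :
    (V (CT j) z - 1) + z + (V (CT j) z - 1) ^ 2 ≤ V (CT (j + 1)) z - 1 := by
  have hP1 := P_CT_le_of_le hz hP (j + 1) (by omega) hK
  have h1 := phi_eq hP1
  rw [← V_eq, P_CT_succ j hj] at h1
  have hlt := V_CT_lt hz j hj (P_CT_lt_of_lt hz hP j hj (by omega))
  have p0 := (one_lt_V_P (CT j) hz).1
  have hV1 : 1 + z ≤ V (CT 1) z := by
    have : P (CT 1) z ≤ 5 / 4 := P_CT_le_of_le hz hP 1 le_rfl (by omega)
    have h2 := le_phi this
    rw [← V_eq] at h2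
    have h3 : P (CT 1) z = 1 + z := rfl
    linarith
  nlinarith

/-- superlinear growth: `k^2 ≤ 100 alpha`, in the form `rho (CT k) * k^2 ≤ 100`. -/
lemma rho_CT_upper (k : ℕ) (hk : 1 ≤ k) : rho (CT k) * k ^ 2 ≤ 100 := by
  set z := rho (CT k) with hz
  have hz0 : 0 < z := rho_pos _
  have hz1 : z ≤ 1 / 4 := rho_le _
  have hP : P (CT k) z ≤ 5 / 4 := (P_rho _).le
  set s := Real.sqrt z with hs
  have hs0 : 0 < s := Real.sqrt_pos.2 hz0
  have hs2 : s ^ 2 = z := Real.sq_sqrt hz0.le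
  have hs1 : s ≤ 1 / 2 := by nlinarith
  set u : ℕ → ℝ := fun j => V (CT j) z - 1 with hu
  have hu0 : ∀ j, 0 < u j := fun j => by simp only [hu]; linarith [one_lt_V_P (CT j) hz0]
  have hstep : ∀ j, 1 ≤ j → j + 1 ≤ k → u j + z + u j ^ 2 ≤ u (j + 1) := fun j hj hjk =>
    CT_step hz0 hP j hj hjk
  have hule : ∀ j, 1 ≤ j → j ≤ k → u j ≤ 1 / 2 := fun j _ _ => by
    simp only [hu, V_eq]
    linarith [phi_le (P (CT j) z)]
  -- phase 1: u j ≥ j z as long as j ≤ k
  have hlin : ∀ j, 1 ≤ j → j ≤ k → (j - 1 : ℝ) * z ≤ u j := by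
    intro j hj
    induction j, hj using Nat.le_induction with
    | base => intro _; simpa using (hu0 1).le
    | succ j hj ih =>
      intro hjk
      have h1 := ih (by omega)
      have h2 := hstep j hj hjk
      push_cast
      nlinarith [sq_nonneg (u j)]
  by_contra hcon
  push Not at hcon
  -- k s > 10
  have hks : 10 < k * s := by
    have h1 : (10 : ℝ) ^ 2 < (k * s) ^ 2 := by
      rw [mul_pow, hs2]; linarith
    exact lt_of_pow_lt_pow_left₀ 2 (by positivity) h1
  -- j0 = ceil (1/s) + 1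
  obtain ⟨j0, hj0a, hj0b⟩ : ∃ j0 : ℕ, 1 / s ≤ j0 ∧ (j0 : ℝ) < 1 / s + 1 :=
    ⟨⌈1 / s⌉₊, Nat.le_ceil _, Nat.ceil_lt_add_one (by positivity)⟩
  have hj0s : 1 ≤ j0 * s := by
    rw [div_le_iff₀ hs0] at hj0a; exact hj0a
  have hj0s' : j0 * s ≤ 3 / 2 := by
    have : j0 * s < (1 / s + 1) * s := mul_lt_mul_of_pos_right hj0b hs0
    rw [add_mul, one_div, inv_mul_cancel₀ hs0.ne'] at this
    linarith
  -- phase 2: 1/u decreases
  have hphase2 : ∀ i : ℕ, j0 + 1 + i ≤ k →
      1 / u (j0 + 1 + i) ≤ 1 / s - i / 2 := by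
    intro i
    induction i with
    | zero =>
      intro hle
      have h1 := hlin (j0 + 1) (by omega) (by omega)
      push_cast at h1
      have h2 : s ≤ u (j0 + 1) := by
        have : s ≤ j0 * z := by
          rw [← hs2]; nlinarith
        linarith
      simp only [add_zero, Nat.cast_zero, zero_div, sub_zero]
      exact one_div_le_one_div_of_le hs0 h2
    | succ i ih =>
      intro hle
      have h1 := ih (by omega)
      have h2 := hstep (j0 + 1 + i) (by omega) (by omega)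
      have p1 := hu0 (j0 + 1 + i)
      have p2 := hu0 (j0 + 1 + i + 1)
      have h3 := hule (j0 + 1 + i + 1) (by omega) (by omega)
      have h4 := hlin (j0 + 1 + i) (by omega) (by omega)
      set x := u (j0 + 1 + i) with hx
      set y := u (j0 + 1 + i + 1) with hy
      -- y ≥ x + x^2, so 1/x - 1/y ≥ 1/(1+x) ≥ 1/2
      have hxle : x ≤ 1 / 2 := hule _ (by omega) (by omega)
      have h5 : 1 / y ≤ 1 / (x + x ^ 2) := one_div_le_one_div_of_le (by positivity) (by linarith)
      have h6 : 1 / (x + x ^ 2) = 1 / x - 1 / (1 + x) := by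
        field_simp; ring
      have h7 : (1 : ℝ) / 2 ≤ 1 / (1 + x) := one_div_le_one_div_of_le (by linarith) (by linarith)
      have e : j0 + 1 + (i + 1) = j0 + 1 + i + 1 := by ring
      rw [e]
      push_cast
      linarith
  have hj0k : j0 + 1 ≤ k := by
    have : ((j0 : ℝ) + 1) * s < k * s := by nlinarith
    have := lt_of_mul_lt_mul_right this hs0.le
    exact_mod_cast this.le
  obtain ⟨i, hi⟩ : ∃ i, k = j0 + 1 + i := ⟨k - (j0 + 1), by omega⟩
  have h1 := hphase2 i (by omega)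
  have h2 : 0 < 1 / u (j0 + 1 + i) := by
    have := hu0 (j0 + 1 + i)
    positivity
  have h3 : (i : ℝ) * s < 2 := by
    have : (i : ℝ) / 2 < 1 / s := by linarith
    rw [lt_div_iff₀ hs0] at this
    linarith
  have h4 : (k : ℝ) = j0 + 1 + i := by exact_mod_cast hi
  rw [h4] at hks
  nlinarith

lemma alpha_eq (S : SpTree) : alpha S = 1 / rho S := (tendsto_growth S).limsup_eq

theorem q2_main :
    (∀ S : SpTree, Tendsto (fun n : ℕ => (h S n) ^ ((1 : ℝ) / n)) atTop (𝓝 (alpha S))) ∧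
    Tendsto (fun k : ℕ => alpha (CT k) / k) atTop atTop ∧
    ∃ c₁ c₂ : ℝ, 0 < c₁ ∧ c₁ ≤ c₂ ∧
      ∀ k : ℕ, 1 ≤ k → c₁ * k ≤ alpha (BT k) ∧ alpha (BT k) ≤ c₂ * k := by
  refine ⟨fun S => ?_, ?_, 4, 20, by norm_num, by norm_num, fun k hk => ⟨?_, ?_⟩⟩
  · rw [alpha_eq]; exact tendsto_growth S
  · have hmain : ∀ᶠ k : ℕ in atTop, (k : ℝ) / 100 ≤ alpha (CT k) / k := by
      filter_upwards [eventually_ge_atTop 1] with k hk
      have hk' : (0 : ℝ) < k := by exact_mod_cast hk
      have h1 := rho_CT_upper k hk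
      have h2 := rho_pos (CT k)
      rw [alpha_eq, div_div, div_le_div_iff₀ (by norm_num) (by positivity)]
      nlinarith
    refine tendsto_atTop_mono' atTop hmain ?_
    exact tendsto_natCast_atTop_atTop.atTop_div_const (by norm_num)
  · have h1 := rho_upper (BT k)
    rw [size_BT k hk] at h1
    rw [alpha_eq, le_div_iff₀ (rho_pos _)]
    linarith
  · have hk' : (0 : ℝ) < k := by exact_mod_cast hk
    have h1 := rho_BT_lower k hk
    rw [alpha_eq, div_le_iff₀ (rho_pos _)]
    rw [div_le_iff₀ (by positivity)] at h1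
    linarith

end Pool.Agent.Lib.MP_f5c34b_co
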